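import Mathlib

set_option autoImplicit false
open Filter Topology

namespace Pool.Agent.H.MP_efa496_an

/-- the weight -/
noncomputable def W (u : ℂ) : ℝ := 1 + Real.exp u.re + Real.exp (-(u ^ 2)).re
/-- the generator -/
noncomputable def T (u : ℂ) : ℂ := 1 + Complex.exp (-(u ^ 2))

lemma W_pos (u : ℂ) : 0 < W u := by unfold W; positivity

lemma T_diff : Differentiable ℂ T := by unfold T; fun_prop

lemma T_le (u : ℂ) : ‖T u‖ ≤ W u := by
  unfold T W
  have := norm_add_le (1 : ℂ) (Complex.exp (-(u ^ 2)))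
  rw [norm_one, Complex.norm_exp] at this
  have := Real.exp_pos u.re
  linarith

lemma low (w : ℂ) (h : 2 / 3 ≤ w.re ∨ w.re ≤ -1 ∨ 0 ≤ Real.cos w.im) :
    (1 + Real.exp w.re) / 4 ≤ ‖1 + Complex.exp w‖ := by
  have he := Real.exp_pos w.re
  rcases h with h | h | h
  · have h1 := norm_sub_norm_le (Complex.exp w) (-1)
    rw [norm_neg, norm_one, Complex.norm_exp, sub_neg_eq_add, add_comm] at h1
    have := Real.add_one_le_exp w.re
    linarith
  · have h1 := norm_sub_norm_le (1 : ℂ) (-Complex.exp w)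
    rw [norm_neg, norm_one, Complex.norm_exp, sub_neg_eq_add] at h1
    have h2 : Real.exp w.re ≤ Real.exp (-1) := Real.exp_le_exp.2 h
    have h3 : Real.exp (-1) * Real.exp 1 = 1 := by rw [← Real.exp_add]; simp
    have h4 := Real.add_one_le_exp 1
    have h5 := Real.exp_pos (-1)
    have : Real.exp (-1) ≤ 1 / 2 := by nlinarith
    linarith
  · apply le_of_sq_le_sq _ (norm_nonneg _) |>.trans le_rfl
    rw [Complex.sq_norm, Complex.normSq_apply]
    simp only [Complex.add_re, Complex.one_re, Complex.exp_re, Complex.add_im, Complex.one_im,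
      Complex.exp_im, zero_add]
    have h1 := Real.sin_sq_add_cos_sq w.im
    have h2 : 0 ≤ Real.exp w.re * Real.cos w.im := by positivity
    have e : (1 + Real.exp w.re * Real.cos w.im) * (1 + Real.exp w.re * Real.cos w.im) +
        Real.exp w.re * Real.sin w.im * (Real.exp w.re * Real.sin w.im) =
        1 + 2 * (Real.exp w.re * Real.cos w.im) + Real.exp w.re ^ 2 := by
      linear_combination (Real.exp w.re ^ 2) * h1
    rw [e]
    nlinarith [sq_nonneg (1 - Real.exp w.re)]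

lemma apriori (Ψ : ℂ → ℂ) (hΨ : Differentiable ℂ Ψ)
    (h : ∀ u, ‖Ψ u * T u‖ ≤ W u * Real.exp (‖u‖ / 4)) (u : ℂ) :
    ‖Ψ u‖ ≤ 8 * Real.exp (3 * ‖u‖ + 5) := by
  have hpi := Real.pi_pos
  have hpi3 := Real.pi_gt_three
  have hpi4 := Real.pi_lt_four
  set m : ℕ := ⌊‖u‖ ^ 2 / (2 * Real.pi)⌋₊ + 1 with hm
  set R : ℝ := m * (2 * Real.pi) with hR
  have hR1 : ‖u‖ ^ 2 < R := by
    have := Nat.lt_floor_add_one (‖u‖ ^ 2 / (2 * Real.pi))
    rw [div_lt_iff₀ (by positivity)] at this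
    rw [hR, hm]; push_cast; exact this
  have hR2 : R ≤ ‖u‖ ^ 2 + 2 * Real.pi := by
    have := Nat.floor_le (a := ‖u‖ ^ 2 / (2 * Real.pi)) (by positivity)
    rw [le_div_iff₀ (by positivity)] at this
    rw [hR, hm]; push_cast; linarith
  have hR3 : 1 ≤ R := by
    have : (1 : ℝ) ≤ m := by rw [hm]; push_cast; have := Nat.cast_nonneg (α := ℝ) ⌊‖u‖ ^ 2 / (2 * Real.pi)⌋₊; linarith
    rw [hR]; nlinarith
  set F : ℂ → ℝ := fun ζ => max |(-(ζ ^ 2)).re| |(-(ζ ^ 2)).im| with hF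
  have hFc : Continuous F := by rw [hF]; fun_prop
  have hnorm : ∀ ζ, F ζ ≤ R → ‖ζ‖ ≤ 2 * ‖u‖ + 4 := by
    intro ζ hζ
    have h1 := Complex.norm_le_abs_re_add_abs_im (-(ζ ^ 2))
    rw [norm_neg, norm_pow] at h1
    have h2 : |(-(ζ ^ 2)).re| ≤ R := (le_max_left _ _).trans hζ
    have h3 : |(-(ζ ^ 2)).im| ≤ R := (le_max_right _ _).trans hζ
    have h4 := norm_nonneg u
    apply le_of_sq_le_sq _ (by positivity) |>.trans le_rfl
    nlinarith
  have hb : Bornology.IsBounded {ζ | F ζ < R} := by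
    refine (Metric.isBounded_closedBall (x := (0 : ℂ)) (r := 2 * ‖u‖ + 4)).subset ?_
    intro ζ hζ
    rw [mem_closedBall_zero_iff]
    exact hnorm ζ (le_of_lt hζ)
  refine Complex.norm_le_of_forall_mem_frontier_norm_le hb hΨ.diffContOnCl ?_ (subset_closure ?_)
  · intro ζ hζ
    have hζ' : F ζ = R := frontier_lt_subset_eq hFc continuous_const hζ
    have hn := hnorm ζ hζ'.le
    have hl : (1 + Real.exp (-(ζ ^ 2)).re) / 4 ≤ ‖T ζ‖ := by
      apply low
      rcases max_eq_iff.1 hζ' with ⟨h1, _⟩ | ⟨h1, _⟩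
      · rcases abs_eq (by linarith) |>.1 h1 with h2 | h2
        · left; linarith
        · right; left; linarith
      · right; right
        rw [← Real.cos_abs, h1, hR, Real.cos_nat_mul_two_pi]; norm_num
    have h1 := h ζ
    rw [norm_mul] at h1
    have h2 : W ζ ≤ 8 * Real.exp ‖ζ‖ * ((1 + Real.exp (-(ζ ^ 2)).re) / 4) := by
      unfold W
      have h3 : Real.exp ζ.re ≤ Real.exp ‖ζ‖ := Real.exp_le_exp.2 (Complex.re_le_norm ζ)
      have h4 : 1 ≤ Real.exp ‖ζ‖ := Real.one_le_exp (norm_nonneg _)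
      have h5 := Real.exp_pos (-(ζ ^ 2)).re
      nlinarith
    have h6 : 0 < (1 + Real.exp (-(ζ ^ 2)).re) / 4 := by positivity
    have h7 : ‖Ψ ζ‖ * ((1 + Real.exp (-(ζ ^ 2)).re) / 4) ≤
        (8 * Real.exp ‖ζ‖ * Real.exp (‖ζ‖ / 4)) * ((1 + Real.exp (-(ζ ^ 2)).re) / 4) := by
      calc _ ≤ ‖Ψ ζ‖ * ‖T ζ‖ := by gcongr
        _ ≤ W ζ * Real.exp (‖ζ‖ / 4) := h1
        _ ≤ (8 * Real.exp ‖ζ‖ * ((1 + Real.exp (-(ζ ^ 2)).re) / 4)) * Real.exp (‖ζ‖ / 4) := by
          gcongr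
        _ = _ := by ring
    have h8 := le_of_mul_le_mul_right h7 h6
    refine h8.trans ?_
    rw [mul_assoc, ← Real.exp_add]
    have := norm_nonneg u
    exact mul_le_mul_of_nonneg_left (Real.exp_le_exp.2 (by linarith)) (by norm_num)
  · show F u < R
    rw [hF]
    have h1 := Complex.abs_re_le_norm (-(u ^ 2))
    have h2 := Complex.abs_im_le_norm (-(u ^ 2))
    rw [norm_neg, norm_pow] at h1 h2
    exact max_lt (by linarith) (by linarith)

lemma ray_bd (Ψ : ℂ → ℂ) (h : ∀ u, ‖Ψ u * T u‖ ≤ W u * Real.exp (‖u‖ / 4)) (u : ℂ)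
    (hu : u.re = ‖u‖ / 2) : ‖Ψ u * Complex.exp (-(u / 2))‖ ≤ 16 := by
  have hn : ‖u‖ ^ 2 = u.re ^ 2 + u.im ^ 2 := by
    rw [Complex.sq_norm, Complex.normSq_apply]; ring
  have hr0 := norm_nonneg u
  have hre : (-(u ^ 2)).re = ‖u‖ ^ 2 / 2 := by
    simp only [Complex.neg_re, pow_two, Complex.mul_re]
    nlinarith
  have him : (-(u ^ 2)).im = -(2 * u.re * u.im) := by
    simp only [Complex.neg_im, pow_two, Complex.mul_im]; ring
  have hl : (1 + Real.exp (-(u ^ 2)).re) / 4 ≤ ‖T u‖ := by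
    apply low
    by_cases hc : 2 / 3 ≤ (-(u ^ 2)).re
    · left; exact hc
    · right; right
      rw [hre] at hc
      have h1 : |u.im| ≤ ‖u‖ := Complex.abs_im_le_norm u
      have h2 : |(-(u ^ 2)).im| ≤ ‖u‖ ^ 2 := by
        have := Complex.abs_im_le_norm (-(u ^ 2))
        rwa [norm_neg, norm_pow] at this
      have hpi3 := Real.pi_gt_three
      rw [abs_le] at h2
      apply Real.cos_nonneg_of_mem_Icc
      constructor <;> linarith [h2.1, h2.2]
  have h1 := h u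
  rw [norm_mul] at h1
  have h2 : W u ≤ 16 * ((1 + Real.exp (-(u ^ 2)).re) / 4) := by
    unfold W
    have h3 : Real.exp u.re ≤ Real.exp 1 * Real.exp (-(u ^ 2)).re := by
      rw [← Real.exp_add, Real.exp_le_exp, hre, hu]
      nlinarith [sq_nonneg (‖u‖ - 1)]
    have h4 := Real.exp_one_lt_d9
    have h5 := Real.exp_pos (-(u ^ 2)).re
    nlinarith
  have h6 : 0 < (1 + Real.exp (-(u ^ 2)).re) / 4 := by positivity
  have h7 : ‖Ψ u‖ * ((1 + Real.exp (-(u ^ 2)).re) / 4) ≤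
      (16 * Real.exp (‖u‖ / 4)) * ((1 + Real.exp (-(u ^ 2)).re) / 4) := by
    calc _ ≤ ‖Ψ u‖ * ‖T u‖ := by gcongr
      _ ≤ W u * Real.exp (‖u‖ / 4) := h1
      _ ≤ (16 * ((1 + Real.exp (-(u ^ 2)).re) / 4)) * Real.exp (‖u‖ / 4) := by gcongr
      _ = _ := by ring
  have h8 := le_of_mul_le_mul_right h7 h6
  rw [norm_mul, Complex.norm_exp]
  have e : (-(u / 2)).re = -(‖u‖ / 4) := by
    simp only [Complex.neg_re, Complex.div_ofNat_re, hu]; ring
  rw [e]
  have h9 : Real.exp (‖u‖ / 4) * Real.exp (-(‖u‖ / 4)) = 1 := by rw [← Real.exp_add]; simp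
  have h10 := Real.exp_pos (-(‖u‖ / 4))
  nlinarith

lemma PL (Ψ : ℂ → ℂ) (hΨ : Differentiable ℂ Ψ)
    (h : ∀ u, ‖Ψ u * T u‖ ≤ W u * Real.exp (‖u‖ / 4)) (u : ℂ) (hu : |u.im| ≤ u.re) :
    ‖Ψ u * T u‖ ≤ 32 * Real.exp (u.re / 2) := by
  have hre0 : 0 ≤ u.re := (abs_nonneg _).trans hu
  have hT : ‖T u‖ ≤ 2 := by
    unfold T
    have h1 := norm_add_le (1 : ℂ) (Complex.exp (-(u ^ 2)))
    rw [norm_one, Complex.norm_exp] at h1
    have h2 : (-(u ^ 2)).re ≤ 0 := by
      simp only [Complex.neg_re, pow_two, Complex.mul_re]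
      have := abs_le.1 hu
      nlinarith [this.1, this.2]
    have := Real.exp_le_one_iff.2 h2
    linarith
  have key : ‖Ψ u * Complex.exp (-(u / 2))‖ ≤ 16 := by
    by_cases h0 : u = 0
    · exact ray_bd Ψ h u (by rw [h0]; simp)
    have hpi := Real.pi_pos
    have hPL := PhragmenLindelof.horizontal_strip
      (f := fun ζ => Ψ (Complex.exp ζ) * Complex.exp (-(Complex.exp ζ / 2)))
      (a := -(Real.pi / 3)) (b := Real.pi / 3) (C := 16) (z := Complex.log u)
      (Differentiable.diffContOnCl (by fun_prop)) ?_ ?_ ?_ ?_ ?_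
    · simpa only [Complex.exp_log h0] using hPL
    · refine ⟨1, ?_, 4, ?_⟩
      · rw [lt_div_iff₀ (by linarith)]; linarith
      · refine Asymptotics.IsBigO.of_bound (8 * Real.exp 5) (Eventually.of_forall fun ζ => ?_)
        rw [norm_mul, Complex.norm_exp, Real.norm_eq_abs, abs_of_pos (Real.exp_pos _)]
        have h1 := apriori Ψ hΨ h (Complex.exp ζ)
        have h2 : ‖Complex.exp ζ‖ ≤ Real.exp (1 * |ζ.re|) := by
          rw [Complex.norm_exp, one_mul]; exact Real.exp_le_exp.2 (le_abs_self _)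
        have h3 : (-(Complex.exp ζ / 2)).re ≤ ‖Complex.exp ζ‖ := by
          have := Complex.re_le_norm (-(Complex.exp ζ / 2))
          rw [norm_neg, norm_div] at this
          have h4 := norm_nonneg (Complex.exp ζ)
          simp only [Complex.norm_ofNat] at this
          linarith
        calc ‖Ψ (Complex.exp ζ)‖ * Real.exp (-(Complex.exp ζ / 2)).re
            ≤ 8 * Real.exp (3 * ‖Complex.exp ζ‖ + 5) * Real.exp ‖Complex.exp ζ‖ := by gcongr
          _ = 8 * Real.exp 5 * Real.exp (4 * ‖Complex.exp ζ‖) := by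
            rw [mul_assoc, mul_assoc, ← Real.exp_add, ← Real.exp_add]; ring_nf
          _ ≤ _ := by gcongr
    · intro ζ hζ
      apply ray_bd Ψ h
      rw [Complex.exp_re, Complex.norm_exp, hζ, Real.cos_neg, Real.cos_pi_div_three]; ring
    · intro ζ hζ
      apply ray_bd Ψ h
      rw [Complex.exp_re, Complex.norm_exp, hζ, Real.cos_pi_div_three]; ring
    all_goals
      have hc : 1 / 2 ≤ Real.cos (Complex.arg u) := by
        rw [Complex.cos_arg h0, le_div_iff₀ (norm_pos_iff.2 h0)]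
        have := Complex.norm_le_abs_re_add_abs_im u
        rw [abs_of_nonneg hre0] at this
        linarith
      have ha : |Complex.arg u| ≤ Real.pi / 3 := by
        by_contra hlt
        have hlt := not_le.1 hlt
        have := Real.cos_lt_cos_of_nonneg_of_le_pi (by positivity) (Complex.abs_arg_le_pi u) hlt
        rw [Real.cos_abs, Real.cos_pi_div_three] at this
        linarith
      rw [Complex.log_im]
      linarith [(abs_le.1 ha).1, (abs_le.1 ha).2]
  rw [norm_mul, Complex.norm_exp] at key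
  have e : (-(u / 2)).re = -(u.re / 2) := by simp
  rw [e] at key
  have h9 : Real.exp (u.re / 2) * Real.exp (-(u.re / 2)) = 1 := by rw [← Real.exp_add]; simp
  have h10 := Real.exp_pos (u.re / 2)
  have h11 : ‖Ψ u‖ ≤ 16 * Real.exp (u.re / 2) := by
    calc ‖Ψ u‖ = ‖Ψ u‖ * Real.exp (-(u.re / 2)) * Real.exp (u.re / 2) := by
          rw [mul_assoc, mul_comm (Real.exp _), h9, mul_one]
      _ ≤ _ := by gcongr
  rw [norm_mul]
  calc ‖Ψ u‖ * ‖T u‖ ≤ (16 * Real.exp (u.re / 2)) * 2 := by gcongr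
    _ = _ := by ring

lemma W_var (u u' : ℂ) (η : ℝ) (hη : ‖u' - u‖ ≤ η) :
    W u' ≤ W u * Real.exp (2 * η * ‖u‖ + η + η ^ 2) := by
  have h0 : 0 ≤ η := (norm_nonneg _).trans hη
  have hu := norm_nonneg u
  set E := 2 * η * ‖u‖ + η + η ^ 2 with hE
  have h1 : 1 ≤ Real.exp E := Real.one_le_exp (by positivity)
  have h2 : Real.exp u'.re ≤ Real.exp u.re * Real.exp E := by
    rw [← Real.exp_add, Real.exp_le_exp]
    have := Complex.re_le_norm (u' - u)
    simp only [Complex.sub_re] at this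
    have : 0 ≤ 2 * η * ‖u‖ + η ^ 2 := by positivity
    linarith
  have h3 : Real.exp (-(u' ^ 2)).re ≤ Real.exp (-(u ^ 2)).re * Real.exp E := by
    rw [← Real.exp_add, Real.exp_le_exp]
    have h4 := Complex.re_le_norm (-(u' ^ 2) - -(u ^ 2))
    have h5 : ‖-(u' ^ 2) - -(u ^ 2)‖ ≤ η * (2 * ‖u‖ + η) := by
      have e : -(u' ^ 2) - -(u ^ 2) = -((u' - u) * (2 * u + (u' - u))) := by ring
      rw [e, norm_neg, norm_mul]
      have h6 : ‖2 * u + (u' - u)‖ ≤ 2 * ‖u‖ + η := by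
        refine (norm_add_le _ _).trans ?_
        rw [norm_mul]; simp only [Complex.norm_ofNat]; linarith
      gcongr
    rw [Complex.sub_re] at h4
    nlinarith
  unfold W
  nlinarith

lemma divide (δ : ℝ) (hδ : 0 < δ) : ∃ M : ℝ, 0 < M ∧ ∀ (ω : ℂ), ‖ω‖ ≤ 2 → ∀ (c : ℂ) (g : ℂ → ℂ),
    Differentiable ℂ g → ∀ r : ℝ, 0 ≤ r →
    (∀ w, ‖(w - c) * g w‖ ≤ r * (W (ω * w) * Real.exp (δ / 2 * ‖w‖))) →
    ∀ w, ‖g w‖ ≤ M * r * (W (ω * w) * Real.exp (δ * ‖w‖)) := by
  set ρ := δ / 32 with hρ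
  have hρ0 : 0 < ρ := by positivity
  set A := 4 * ρ + (4 * ρ) ^ 2 + δ * ρ with hA
  refine ⟨Real.exp A / ρ, by positivity, fun ω hω c g hg r hr h w => ?_⟩
  have key : ∀ ζ, ρ ≤ ‖ζ - c‖ → ‖ζ - w‖ ≤ 2 * ρ →
      ‖g ζ‖ ≤ Real.exp A / ρ * r * (W (ω * w) * Real.exp (δ * ‖w‖)) := by
    intro ζ h1 h2
    have h3 := h ζ
    rw [norm_mul] at h3
    have h4 : ‖ω * ζ - ω * w‖ ≤ 4 * ρ := by
      rw [← mul_sub, norm_mul]
      calc _ ≤ 2 * (2 * ρ) := by gcongr
        _ = _ := by ring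
    have h5 := W_var _ _ _ h4
    have h6 : ‖ω * w‖ ≤ 2 * ‖w‖ := by rw [norm_mul]; gcongr
    have h7 : ‖ζ‖ ≤ ‖w‖ + 2 * ρ := by
      have := norm_add_le w (ζ - w)
      simp only [add_sub_cancel] at this
      linarith
    have hW := W_pos (ω * w)
    have h8 : W (ω * ζ) * Real.exp (δ / 2 * ‖ζ‖) ≤
        Real.exp A * (W (ω * w) * Real.exp (δ * ‖w‖)) := by
      calc _ ≤ W (ω * w) * Real.exp (2 * (4 * ρ) * ‖ω * w‖ + 4 * ρ + (4 * ρ) ^ 2) *
            Real.exp (δ / 2 * ‖ζ‖) := by gcongr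
        _ = W (ω * w) * Real.exp (2 * (4 * ρ) * ‖ω * w‖ + 4 * ρ + (4 * ρ) ^ 2 + δ / 2 * ‖ζ‖) := by
            rw [mul_assoc, ← Real.exp_add]
        _ ≤ W (ω * w) * Real.exp (A + δ * ‖w‖) := by
            refine mul_le_mul_of_nonneg_left (Real.exp_le_exp.2 ?_) hW.le
            have h9 : 2 * (4 * ρ) * ‖ω * w‖ ≤ 2 * (4 * ρ) * (2 * ‖w‖) := by gcongr
            have h10 : δ / 2 * ‖ζ‖ ≤ δ / 2 * (‖w‖ + 2 * ρ) := by gcongr
            have h11 : 2 * (4 * ρ) * (2 * ‖w‖) = δ / 2 * ‖w‖ := by rw [hρ]; ring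
            rw [hA]; nlinarith
        _ = _ := by rw [Real.exp_add]; ring
    have h9 : ρ * ‖g ζ‖ ≤ r * (Real.exp A * (W (ω * w) * Real.exp (δ * ‖w‖))) := by
      calc _ ≤ ‖ζ - c‖ * ‖g ζ‖ := by gcongr
        _ ≤ _ := h3
        _ ≤ _ := by gcongr
    rw [div_mul_eq_mul_div, div_mul_eq_mul_div, le_div_iff₀ hρ0]
    linarith
  by_cases hw : ρ ≤ ‖w - c‖
  · exact key w hw (by simp; positivity)
  · have hw := not_le.1 hw
    refine Complex.norm_le_of_forall_mem_frontier_norm_le (U := Metric.ball c ρ)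
      Metric.isBounded_ball hg.diffContOnCl ?_ (subset_closure ?_)
    · intro ζ hζ
      rw [frontier_ball c hρ0.ne', mem_sphere_iff_norm] at hζ
      refine key ζ hζ.ge ?_
      have := norm_sub_le_norm_sub_add_norm_sub ζ c w
      rw [norm_sub_rev c w] at this
      linarith
    · rwa [mem_ball_iff_norm]

lemma poly_bd (p : Polynomial ℂ) (δ : ℝ) (hδ : 0 < δ) :
    ∃ C : ℝ, 0 < C ∧ ∀ w : ℂ, ‖p.eval w‖ ≤ C * Real.exp (δ * ‖w‖) := by
  induction p using Polynomial.induction_on' with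
  | add p q hp hq =>
    obtain ⟨C1, h1, h1'⟩ := hp
    obtain ⟨C2, h2, h2'⟩ := hq
    refine ⟨C1 + C2, by positivity, fun w => ?_⟩
    rw [Polynomial.eval_add]
    refine (norm_add_le _ _).trans ?_
    linarith [h1' w, h2' w]
  | monomial n a =>
    refine ⟨(‖a‖ + 1) * (n.factorial / δ ^ n), by positivity, fun w => ?_⟩
    rw [Polynomial.eval_monomial, norm_mul, norm_pow]
    have h1 := Real.pow_div_factorial_le_exp (δ * ‖w‖) (by positivity) n
    rw [div_le_iff₀ (by positivity), mul_pow] at h1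
    have h2 : ‖w‖ ^ n ≤ (n.factorial / δ ^ n) * Real.exp (δ * ‖w‖) := by
      rw [div_mul_eq_mul_div, le_div_iff₀ (by positivity)]
      linarith
    calc ‖a‖ * ‖w‖ ^ n ≤ (‖a‖ + 1) * ((n.factorial / δ ^ n) * Real.exp (δ * ‖w‖)) := by
          gcongr; linarith
      _ = _ := by ring

lemma global_quot (g S : ℂ → ℂ) (hS : Differentiable ℂ S) (hS0 : S 0 ≠ 0)
    (h : ∀ c, ∃ k : ℂ → ℂ, AnalyticAt ℂ k c ∧ ∀ᶠ w in 𝓝 c, g w = k w * S w) :
    ∃ Ψ : ℂ → ℂ, Differentiable ℂ Ψ ∧ ∀ w, g w = Ψ w * S w := by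
  choose k hk hk' using h
  have hne : ∀ w, ∀ᶠ z in 𝓝[≠] w, S z ≠ 0 := by
    intro w
    rcases (hS.analyticAt w).eventually_eq_zero_or_eventually_ne_zero with h0 | h0
    · exfalso
      have hA : AnalyticOnNhd ℂ S Set.univ := fun z _ => hS.analyticAt z
      exact hS0 (hA.eqOn_zero_of_preconnected_of_eventuallyEq_zero isPreconnected_univ
        (Set.mem_univ w) h0 (Set.mem_univ 0))
    · exact h0
  refine ⟨fun c => k c c, fun c => ?_, fun w => (hk' w).self_of_nhds⟩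
  have h1 : (fun w => k w w) =ᶠ[𝓝 c] k c := by
    filter_upwards [(hk c).eventually_analyticAt, (hk' c).eventually_nhds] with w hw1 hw2
    have h2 : ∀ᶠ z in 𝓝[≠] w, k w z = k c z := by
      filter_upwards [hne w, nhdsWithin_le_nhds (hk' w), nhdsWithin_le_nhds hw2] with z h1 h2 h3
      exact mul_right_cancel₀ h1 (h2.symm.trans h3)
    have t1 : Tendsto (k w) (𝓝[≠] w) (𝓝 (k w w)) :=
      (hk w).continuousAt.tendsto.mono_left nhdsWithin_le_nhds
    have t2 : Tendsto (k c) (𝓝[≠] w) (𝓝 (k c w)) :=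
      hw1.continuousAt.tendsto.mono_left nhdsWithin_le_nhds
    exact tendsto_nhds_unique (t1.congr' h2) t2
  exact (hk c).differentiableAt.congr_of_eventuallyEq h1

end Pool.Agent.H.MP_efa496_an
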